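import Pool.Agent.helper82.T6.SpecW

set_option autoImplicit false

namespace Pool.Agent.T6

open Finset Pool.Agent.helper3.FT Pool.Agent.T5

theorem WDL_pr (s : Finset ℕ) (f : ℕ → ℕ) (hs : ∀ q ∈ s, q.Prime) (p : ℕ) (hp : p.Prime)
    (h : p ∣ ∏ q ∈ s, q ^ f q) : p ∈ s := by
  rw [(Nat.prime_iff.1 hp).dvd_finsetProd_iff] at h
  obtain ⟨q, hq, h1⟩ := h
  have h2 := (Nat.prime_dvd_prime_iff_eq hp (hs q hq)).1 (hp.dvd_of_dvd_pow h1)
  rw [h2]
  exact hq

theorem WDL_pr' (s : Finset ℕ) (hs : ∀ q ∈ s, q.Prime) (p : ℕ) (hp : p.Prime)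
    (h : p ∣ ∏ q ∈ s, q) : p ∈ s := by
  refine WDL_pr s (fun _ => 1) hs p hp ?_
  have : ∏ q ∈ s, q ^ 1 = ∏ q ∈ s, q := Finset.prod_congr rfl fun q _ => pow_one q
  rw [this]
  exact h

theorem WDL : WDL_stmt := by
  refine ⟨?_, ?_, ?_⟩
  · intro y h m hh
    have hh0 : h ≠ 0 := by omega
    set S := h.primeFactors.filter (fun p => y < p ∧ ¬ p ∣ m) with hS
    have hSp : ∀ q ∈ S, q.Prime := by
      intro q hq
      rw [hS, Finset.mem_filter] at hq
      exact Nat.prime_of_mem_primeFactors hq.1
    have hdl : dl y h m = ∏ p ∈ S, p ^ h.factorization p := rfl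
    have hpos : 1 ≤ dl y h m := by
      rw [hdl]
      exact Finset.prod_pos fun q hq => pow_pos (hSp q hq).pos _
    have hdvd : dl y h m ∣ h := by
      have h1 : ∏ p ∈ h.primeFactors, p ^ h.factorization p = h := Nat.factorization_prod_pow_eq_self hh0
      have h2 : dl y h m ∣ ∏ p ∈ h.primeFactors, p ^ h.factorization p := by
        rw [hdl]
        exact Finset.prod_dvd_prod_of_subset _ _ _ (Finset.filter_subset _ _)
      rw [h1] at h2
      exact h2
    refine ⟨hpos, hdvd, ?_, ?_, ?_⟩
    · rw [hdl]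
      apply Nat.Coprime.prod_left
      intro q hq
      apply Nat.Coprime.pow_left
      rw [(hSp q hq).coprime_iff_not_dvd]
      rw [hS, Finset.mem_filter] at hq
      exact hq.2.2
    · intro p hp hpd
      rw [hdl] at hpd
      have h1 := WDL_pr S _ hSp p hp hpd
      rw [hS, Finset.mem_filter] at h1
      exact h1.2.1
    · unfold rr
      apply Finset.prod_primes_dvd
      · intro p hp
        rw [Finset.mem_filter] at hp
        exact Nat.prime_iff.1 (Nat.prime_of_mem_primeFactors hp.1)
      · intro p hp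
        rw [Finset.mem_filter] at hp
        obtain ⟨h1, h2⟩ := hp
        have hpp := Nat.prime_of_mem_primeFactors h1
        have h3 : p ∣ h / dl y h m := Nat.dvd_of_mem_primeFactors h1
        by_contra h4
        have h5 : p * dl y h m ∣ h := by
          obtain ⟨c, hc⟩ := h3
          refine ⟨c, ?_⟩
          have h6 : h = dl y h m * (h / dl y h m) := (Nat.mul_div_cancel' hdvd).symm
          rw [hc] at h6
          calc h = dl y h m * (p * c) := h6
            _ = p * dl y h m * c := by ring
        have h6 : p ∣ h := dvd_trans (dvd_mul_right _ _) h5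
        have h7 : p ∈ S := by
          rw [hS, Finset.mem_filter]
          exact ⟨Nat.mem_primeFactors.2 ⟨hpp, h6, hh0⟩, h2, h4⟩
        have h8 : p ^ h.factorization p ∣ dl y h m := by
          rw [hdl]
          exact Finset.dvd_prod_of_mem _ h7
        have h9 : p ^ (h.factorization p + 1) ∣ h := by
          refine dvd_trans ?_ h5
          rw [pow_succ, mul_comm]
          exact Nat.mul_dvd_mul_left p h8
        exact Nat.pow_succ_factorization_not_dvd hh0 hpp h9
  · intro δ n k hδ hk
    have hδ0 : δ ≠ 0 := by omega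
    have : NeZero δ := ⟨hδ0⟩
    have hrt : rt δ n k = ((n : ZMod δ) * (k : ZMod δ)⁻¹).val := by
      unfold rt
      rw [if_neg hδ0]
    have h1 : (δ : ℤ) ∣ (rt δ n k : ℤ) * k - n := by
      rw [← ZMod.intCast_zmod_eq_zero_iff_dvd]
      push_cast
      rw [hrt, ZMod.natCast_zmod_val]
      have h2 : (k : ZMod δ) * (k : ZMod δ)⁻¹ = 1 := ZMod.coe_mul_inv_eq_one k hk.symm
      linear_combination (n : ZMod δ) * h2
    refine ⟨h1, ?_, ?_⟩
    · rw [hrt]
      exact ZMod.val_lt _
    · intro hn
      rw [Nat.coprime_comm]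
      apply Nat.Coprime.symm
      by_contra h2
      obtain ⟨p, hp, h3, h4⟩ := Nat.Prime.not_coprime_iff_dvd.1 h2
      have h5 : (p : ℤ) ∣ (n : ℤ) := by
        have h6 : (p : ℤ) ∣ (rt δ n k : ℤ) * k := Dvd.dvd.mul_right (Int.natCast_dvd_natCast.2 h3) _
        have h7 : (p : ℤ) ∣ (rt δ n k : ℤ) * k - n := dvd_trans (Int.natCast_dvd_natCast.2 h4) h1
        have h8 := dvd_sub h6 h7
        rwa [sub_sub_cancel] at h8
      have h6 : p ∣ n := Int.natCast_dvd_natCast.1 h5
      have h7 := Nat.dvd_gcd h4 h6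
      rw [hn] at h7
      exact hp.one_lt.ne' (Nat.dvd_one.1 h7)
  · intro y e he
    have hp : ∀ q ∈ e.primeFactors.filter (fun p => y < p), q.Prime := by
      intro q hq
      rw [Finset.mem_filter] at hq
      exact Nat.prime_of_mem_primeFactors hq.1
    refine ⟨?_, ?_, ?_⟩
    · unfold rr
      refine Finset.squarefree_prod_of_pairwise_isCoprime (fun p h1 q h2 h3 => ?_) (fun p h1 => ?_)
      · exact (Nat.coprime_iff_isRelPrime).1 ((Nat.coprime_primes (hp p h1) (hp q h2)).2 h3)
      · exact (Nat.prime_iff.1 (hp p h1)).irreducible.squarefree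
    · unfold rr
      apply Finset.prod_primes_dvd
      · intro p h1
        exact Nat.prime_iff.1 (hp p h1)
      · intro p h1
        rw [Finset.mem_filter] at h1
        exact Nat.dvd_of_mem_primeFactors h1.1
    · intro p h1 h2
      unfold rr at h2
      have h3 := WDL_pr' _ hp p h1 h2
      rw [Finset.mem_filter] at h3
      exact h3.2

end Pool.Agent.T6
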