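import Pool.Agent.helper8.T6.SpecC1

set_option autoImplicit false

namespace Pool.Agent.T6

open Finset Pool.Agent.T5

theorem TDL_disc {F : Type} [CommRing F] (c3 c2 c1 c0 R : F) (h0 : c3 * R ^ 3 + c2 * R ^ 2 + c1 * R + c0 = 0)
    (h1 : 3 * c3 * R ^ 2 + 2 * c2 * R + c1 = 0) :
    18 * c3 * c2 * c1 * c0 - 4 * c2 ^ 3 * c0 + c2 ^ 2 * c1 ^ 2 - 4 * c3 * c1 ^ 3 - 27 * c3 ^ 2 * c0 ^ 2 = 0 := by
  have e1 : c1 = -(3 * c3 * R ^ 2 + 2 * c2 * R) := by linear_combination h1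
  have e0 : c0 = -(c3 * R ^ 3 + c2 * R ^ 2 + c1 * R) := by linear_combination h0
  rw [e0, e1]
  ring

theorem TDL_id {F : Type} [CommRing F] (n k m g : F) :
    18 * (-(4 * k ^ 5)) * (n ^ 4 * g ^ 2 - 6 * n ^ 2 * k ^ 2 * m * g - 11 * k ^ 4 * m ^ 2) *
      (-(10 * k * m ^ 3 * (n ^ 2 * g + k ^ 2 * m))) * (-(m ^ 5 * (4 * n ^ 2 * g + 3 * k ^ 2 * m))) -
      4 * (n ^ 4 * g ^ 2 - 6 * n ^ 2 * k ^ 2 * m * g - 11 * k ^ 4 * m ^ 2) ^ 3 *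
      (-(m ^ 5 * (4 * n ^ 2 * g + 3 * k ^ 2 * m))) +
      (n ^ 4 * g ^ 2 - 6 * n ^ 2 * k ^ 2 * m * g - 11 * k ^ 4 * m ^ 2) ^ 2 *
      (-(10 * k * m ^ 3 * (n ^ 2 * g + k ^ 2 * m))) ^ 2 -
      4 * (-(4 * k ^ 5)) * (-(10 * k * m ^ 3 * (n ^ 2 * g + k ^ 2 * m))) ^ 3 -
      27 * (-(4 * k ^ 5)) ^ 2 * (-(m ^ 5 * (4 * n ^ 2 * g + 3 * k ^ 2 * m))) ^ 2 =
      16 * m ^ 5 * (n ^ 2 * g) ^ 5 * (n ^ 4 * g ^ 2 - 11 * n ^ 2 * k ^ 2 * m * g - k ^ 4 * m ^ 2) := by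
  ring

theorem TDL : TDL_stmt := by
  intro p n k m g R hp hp2 hn h1 h2
  have : Fact p.Prime := ⟨hp⟩
  have a1 : ((Pk n k m g R : ℤ) : ZMod p) = 0 := (ZMod.intCast_zmod_eq_zero_iff_dvd _ _).2 h1
  have a2 : ((Pk' n k m g R : ℤ) : ZMod p) = 0 := (ZMod.intCast_zmod_eq_zero_iff_dvd _ _).2 h2
  have hn' : (n : ZMod p) ≠ 0 := fun h => hn ((ZMod.intCast_zmod_eq_zero_iff_dvd _ _).1 h)
  have b1 : (-(4 * (k : ZMod p) ^ 5)) * (R : ZMod p) ^ 3 +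
      ((n : ZMod p) ^ 4 * (g : ZMod p) ^ 2 - 6 * (n : ZMod p) ^ 2 * (k : ZMod p) ^ 2 * (m : ZMod p) * (g : ZMod p) -
        11 * (k : ZMod p) ^ 4 * (m : ZMod p) ^ 2) * (R : ZMod p) ^ 2 +
      (-(10 * (k : ZMod p) * (m : ZMod p) ^ 3 * ((n : ZMod p) ^ 2 * (g : ZMod p) + (k : ZMod p) ^ 2 * (m : ZMod p)))) *
        (R : ZMod p) +
      (-((m : ZMod p) ^ 5 * (4 * (n : ZMod p) ^ 2 * (g : ZMod p) + 3 * (k : ZMod p) ^ 2 * (m : ZMod p)))) = 0 := by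
    unfold Pk at a1
    push_cast at a1
    linear_combination a1
  have b2 : 3 * (-(4 * (k : ZMod p) ^ 5)) * (R : ZMod p) ^ 2 +
      2 * ((n : ZMod p) ^ 4 * (g : ZMod p) ^ 2 - 6 * (n : ZMod p) ^ 2 * (k : ZMod p) ^ 2 * (m : ZMod p) * (g : ZMod p) -
        11 * (k : ZMod p) ^ 4 * (m : ZMod p) ^ 2) * (R : ZMod p) +
      (-(10 * (k : ZMod p) * (m : ZMod p) ^ 3 * ((n : ZMod p) ^ 2 * (g : ZMod p) + (k : ZMod p) ^ 2 * (m : ZMod p)))) =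
        0 := by
    unfold Pk' at a2
    push_cast at a2
    linear_combination a2
  have b3 := TDL_disc _ _ _ _ _ b1 b2
  rw [TDL_id] at b3
  have h16 : (16 : ZMod p) ≠ 0 := by
    intro h
    have h' : ((16 : ℕ) : ZMod p) = 0 := by exact_mod_cast h
    rw [ZMod.natCast_eq_zero_iff] at h'
    have h3 : p ∣ 2 ^ 4 := by
      have : (2 : ℕ) ^ 4 = 16 := by norm_num
      rw [this]
      exact h'
    have h4 := (Nat.prime_dvd_prime_iff_eq hp Nat.prime_two).1 (hp.dvd_of_dvd_pow h3)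
    exact hp2 h4
  have b4 : (m : ZMod p) = 0 ∨ (g : ZMod p) = 0 ∨
      (n : ZMod p) ^ 4 * (g : ZMod p) ^ 2 - 11 * (n : ZMod p) ^ 2 * (k : ZMod p) ^ 2 * (m : ZMod p) * (g : ZMod p) -
        (k : ZMod p) ^ 4 * (m : ZMod p) ^ 2 = 0 := by
    rcases mul_eq_zero.1 b3 with b5 | b5
    · rcases mul_eq_zero.1 b5 with b6 | b6
      · rcases mul_eq_zero.1 b6 with b7 | b7
        · exact absurd b7 h16
        · exact Or.inl (pow_eq_zero_iff (by norm_num) |>.1 b7)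
      · have b7 := (pow_eq_zero_iff (by norm_num)).1 b6
        rcases mul_eq_zero.1 b7 with b8 | b8
        · exact absurd ((pow_eq_zero_iff (by norm_num)).1 b8) hn'
        · exact Or.inr (Or.inl b8)
    · exact Or.inr (Or.inr b5)
  rcases b4 with b5 | b5 | b5
  · exact Or.inl ((ZMod.intCast_zmod_eq_zero_iff_dvd _ _).1 b5)
  · exact Or.inr (Or.inl ((ZMod.intCast_zmod_eq_zero_iff_dvd _ _).1 b5))
  · refine Or.inr (Or.inr ((ZMod.intCast_zmod_eq_zero_iff_dvd _ _).1 ?_))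
    push_cast
    exact b5

end Pool.Agent.T6
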