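import Pool.Agent.helper95.T6.SpecE

set_option autoImplicit false

namespace Pool.Agent.T6

open Finset Pool.Agent.helper3.FT Pool.Agent.T5

theorem ENL_core (a b m h E T L L' N₁ K₁ : ℝ) (ha : 0 < a) (hb : 1 ≤ b) (hm : 0 < m) (hh : 0 < h) (hE : 0 < E)
    (rel : a ^ 3 * b = h * m) (T1 : T ≤ 11 * h ^ 2 * E)
    (L1 : m ≤ 8000 * E * L) (L2 : 4000 * E * L ≤ m) (L1' : b ^ 4 * m ≤ 8000 * E * L') (L2' : 4000 * E * L' ≤ b ^ 4 * m)
    (n1 : a / 4 ≤ N₁) (n2 : N₁ ≤ a / 2) (k1 : b ^ 2 * a / 8 ≤ K₁) (k2 : K₁ ≤ 17 / 100 * (b ^ 2 * a)) :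
    32 * (T * E) * L' / N₁ ^ 3 ≤ 6 * (h * E * b ^ 5) ∧
    K₁ ^ 3 / L ≤ 40 * (h * E * b ^ 5) ∧
    32 * (T * E) * L / N₁ ^ 3 ≤ 6 * (h * E * b) ∧
    2 * N₁ ^ 2 * K₁ / L ≤ 680 * (h * E * b) ∧
    K₁ ^ 3 / L' ≤ 40 * (h * E * b) ∧
    4 * N₁ / K₁ ≤ 16 / b ^ 2 ∧
    5 * N₁ ^ 3 / L ≤ 5000 * (h * E / b) ∧
    N₁ ^ 3 / L' ≤ 1000 * (h * E / b ^ 5) := by
  have hb0 : 0 < b := by linarith
  have hN : 0 < N₁ := lt_of_lt_of_le (by positivity) n1
  have hK : 0 < K₁ := lt_of_lt_of_le (by positivity) k1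
  have hL : 0 < L := by
    have h1 : 0 < (8000 * E) * L := lt_of_lt_of_le hm L1
    exact (mul_pos_iff_of_pos_left (by positivity)).mp h1
  have hL' : 0 < L' := by
    have h1 : 0 < (8000 * E) * L' := lt_of_lt_of_le (by positivity) L1'
    exact (mul_pos_iff_of_pos_left (by positivity)).mp h1
  have hTe : T * E ≤ 11 * h ^ 2 * E ^ 2 := by
    calc T * E ≤ (11 * h ^ 2 * E) * E := mul_le_mul_of_nonneg_right T1 hE.le
      _ = _ := by ring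
  have hN3 : (a / 4) ^ 3 ≤ N₁ ^ 3 := pow_le_pow_left₀ (by positivity) n1 3
  have hN3' : N₁ ^ 3 ≤ (a / 2) ^ 3 := pow_le_pow_left₀ hN.le n2 3
  have hN2' : N₁ ^ 2 ≤ (a / 2) ^ 2 := pow_le_pow_left₀ hN.le n2 2
  have hK3' : K₁ ^ 3 ≤ (17 / 100 * (b ^ 2 * a)) ^ 3 := pow_le_pow_left₀ hK.le k2 3
  refine ⟨?_, ?_, ?_, ?_, ?_, ?_, ?_, ?_⟩
  · rw [div_le_iff₀ (pow_pos hN 3)]
    calc 32 * (T * E) * L' ≤ 32 * (11 * h ^ 2 * E ^ 2) * L' := by
          refine mul_le_mul_of_nonneg_right ?_ hL'.le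
          linarith
      _ = 352 / 4000 * h ^ 2 * E * (4000 * E * L') := by ring
      _ ≤ 352 / 4000 * h ^ 2 * E * (b ^ 4 * m) := mul_le_mul_of_nonneg_left L2' (by positivity)
      _ = 352 / 4000 * h * E * b ^ 4 * (h * m) := by ring
      _ = 352 / 4000 * (h * E * b ^ 4 * (a ^ 3 * b)) := by rw [rel]; ring
      _ ≤ 6 / 64 * (h * E * b ^ 4 * (a ^ 3 * b)) := mul_le_mul_of_nonneg_right (by norm_num) (by positivity)
      _ = 6 * (h * E * b ^ 5) * (a / 4) ^ 3 := by ring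
      _ ≤ _ := mul_le_mul_of_nonneg_left hN3 (by positivity)
  · rw [div_le_iff₀ hL]
    calc K₁ ^ 3 ≤ (17 / 100 * (b ^ 2 * a)) ^ 3 := hK3'
      _ = 4913 / 1000000 * b ^ 5 * (a ^ 3 * b) := by ring
      _ = 4913 / 1000000 * (h * b ^ 5) * m := by rw [rel]; ring
      _ ≤ 4913 / 1000000 * (h * b ^ 5) * (8000 * E * L) := mul_le_mul_of_nonneg_left L1 (by positivity)
      _ = 39304 / 1000 * (h * E * b ^ 5 * L) := by ring
      _ ≤ 40 * (h * E * b ^ 5 * L) := mul_le_mul_of_nonneg_right (by norm_num) (by positivity)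
      _ = _ := by ring
  · rw [div_le_iff₀ (pow_pos hN 3)]
    calc 32 * (T * E) * L ≤ 32 * (11 * h ^ 2 * E ^ 2) * L := by
          refine mul_le_mul_of_nonneg_right ?_ hL.le
          linarith
      _ = 352 / 4000 * h ^ 2 * E * (4000 * E * L) := by ring
      _ ≤ 352 / 4000 * h ^ 2 * E * m := mul_le_mul_of_nonneg_left L2 (by positivity)
      _ = 352 / 4000 * h * E * (h * m) := by ring
      _ = 352 / 4000 * (h * E * (a ^ 3 * b)) := by rw [rel]; ring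
      _ ≤ 6 / 64 * (h * E * (a ^ 3 * b)) := mul_le_mul_of_nonneg_right (by norm_num) (by positivity)
      _ = 6 * (h * E * b) * (a / 4) ^ 3 := by ring
      _ ≤ _ := mul_le_mul_of_nonneg_left hN3 (by positivity)
  · rw [div_le_iff₀ hL]
    calc 2 * N₁ ^ 2 * K₁ ≤ 2 * (a / 2) ^ 2 * (17 / 100 * (b ^ 2 * a)) := by
          refine mul_le_mul ?_ k2 hK.le (by positivity)
          linarith
      _ = 17 / 200 * b * (a ^ 3 * b) := by ring
      _ = 17 / 200 * (h * b) * m := by rw [rel]; ring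
      _ ≤ 17 / 200 * (h * b) * (8000 * E * L) := mul_le_mul_of_nonneg_left L1 (by positivity)
      _ = _ := by ring
  · rw [div_le_iff₀ hL']
    calc K₁ ^ 3 ≤ (17 / 100 * (b ^ 2 * a)) ^ 3 := hK3'
      _ = 4913 / 1000000 * b ^ 5 * (a ^ 3 * b) := by ring
      _ = 4913 / 1000000 * (h * b) * (b ^ 4 * m) := by rw [rel]; ring
      _ ≤ 4913 / 1000000 * (h * b) * (8000 * E * L') := mul_le_mul_of_nonneg_left L1' (by positivity)
      _ = 39304 / 1000 * (h * E * b * L') := by ring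
      _ ≤ 40 * (h * E * b * L') := mul_le_mul_of_nonneg_right (by norm_num) (by positivity)
      _ = _ := by ring
  · rw [div_le_div_iff₀ hK (by positivity)]
    calc 4 * N₁ * b ^ 2 ≤ 4 * (a / 2) * b ^ 2 := by
          refine mul_le_mul_of_nonneg_right ?_ (by positivity)
          linarith
      _ = 16 * (b ^ 2 * a / 8) := by ring
      _ ≤ _ := mul_le_mul_of_nonneg_left k1 (by positivity)
  · rw [div_le_iff₀ hL]
    calc 5 * N₁ ^ 3 ≤ 5 * (a / 2) ^ 3 := by linarith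
      _ = 5 / 8 * (a ^ 3 * b) / b := by field_simp; ring
      _ = 5 / 8 * (h / b) * m := by rw [rel]; field_simp
      _ ≤ 5 / 8 * (h / b) * (8000 * E * L) := mul_le_mul_of_nonneg_left L1 (by positivity)
      _ = _ := by ring
  · rw [div_le_iff₀ hL']
    calc N₁ ^ 3 ≤ (a / 2) ^ 3 := hN3'
      _ = 1 / 8 * (a ^ 3 * b) / b := by field_simp; ring
      _ = 1 / 8 * (h / b ^ 5) * (b ^ 4 * m) := by rw [rel]; field_simp
      _ ≤ 1 / 8 * (h / b ^ 5) * (8000 * E * L') := mul_le_mul_of_nonneg_left L1' (by positivity)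
      _ = _ := by ring

/-- the real numbers `R = N^(1/40)` -/
theorem ENL_R (N M : ℝ) (hM : 1 ≤ M) (hN : M ^ 20 ≤ N) : ∃ R : ℝ, 1 ≤ R ∧ R ^ 40 = N ∧ M ≤ R ^ 2 ∧ R = N ^ (1 / 40 : ℝ) := by
  have h0 : (1 : ℝ) ≤ N := le_trans (one_le_pow₀ hM) hN
  refine ⟨N ^ (1 / 40 : ℝ), ?_, ?_, ?_, rfl⟩
  · exact Real.one_le_rpow h0 (by norm_num)
  · rw [← Real.rpow_natCast, ← Real.rpow_mul (by linarith)]
    norm_num
  · have h1 : (N ^ (1 / 40 : ℝ)) ^ 2 = N ^ (1 / 20 : ℝ) := by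
      rw [← Real.rpow_natCast, ← Real.rpow_mul (by linarith)]
      norm_num
    rw [h1]
    have h2 : (M ^ 20) ^ (1 / 20 : ℝ) = M := by
      rw [← Real.rpow_natCast, ← Real.rpow_mul (by linarith)]
      norm_num
    rw [← h2]
    exact Real.rpow_le_rpow (by positivity) hN (by norm_num)

/-- the error term -/
theorem ENL_err (E T P ρ s S : ℝ) (hE : 1 ≤ E) (hT : 1 ≤ T) (hP : 0 ≤ P) (hρ : 0 ≤ ρ) (hs : 0 ≤ s) (hsS : s ≤ S)
    (hρ2 : ρ ^ 2 ≤ 5 * 10 ^ 8 * E * T) (hTP : T ≤ 352 * E * P) :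
    1 / T * (s * (T * P + ρ ^ (3 / 2 : ℝ) * (T ^ (5 / 4 : ℝ) + P * T ^ (1 / 4 : ℝ)))) ≤ 18 * 10 ^ 10 * E ^ 2 * (S * P) := by
  have hT0 : 0 < T := by linarith
  have h1 : ρ ^ (3 / 2 : ℝ) ≤ 5 * 10 ^ 8 * E * T ^ (3 / 4 : ℝ) := by
    have h2 : ρ ^ (3 / 2 : ℝ) = (ρ ^ 2) ^ (3 / 4 : ℝ) := by
      rw [← Real.rpow_natCast, ← Real.rpow_mul hρ]
      norm_num
    rw [h2]
    calc (ρ ^ 2) ^ (3 / 4 : ℝ) ≤ (5 * 10 ^ 8 * E * T) ^ (3 / 4 : ℝ) := Real.rpow_le_rpow (by positivity) hρ2 (by norm_num)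
      _ = (5 * 10 ^ 8 * E) ^ (3 / 4 : ℝ) * T ^ (3 / 4 : ℝ) := Real.mul_rpow (by positivity) hT0.le
      _ ≤ (5 * 10 ^ 8 * E) ^ (1 : ℝ) * T ^ (3 / 4 : ℝ) := by
          refine mul_le_mul_of_nonneg_right ?_ (by positivity)
          exact Real.rpow_le_rpow_of_exponent_le (by nlinarith) (by norm_num)
      _ = _ := by rw [Real.rpow_one]
  have h54 : T ^ (3 / 4 : ℝ) * T ^ (5 / 4 : ℝ) = T * T := by
    rw [← Real.rpow_add hT0, ← sq, ← Real.rpow_natCast]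
    norm_num
  have h14 : T ^ (3 / 4 : ℝ) * T ^ (1 / 4 : ℝ) = T := by
    rw [← Real.rpow_add hT0]
    norm_num
  have h2 : ρ ^ (3 / 2 : ℝ) * (T ^ (5 / 4 : ℝ) + P * T ^ (1 / 4 : ℝ)) ≤ 5 * 10 ^ 8 * E * (T * T + P * T) := by
    calc ρ ^ (3 / 2 : ℝ) * (T ^ (5 / 4 : ℝ) + P * T ^ (1 / 4 : ℝ)) ≤
        (5 * 10 ^ 8 * E * T ^ (3 / 4 : ℝ)) * (T ^ (5 / 4 : ℝ) + P * T ^ (1 / 4 : ℝ)) :=
          mul_le_mul_of_nonneg_right h1 (by positivity)
      _ = 5 * 10 ^ 8 * E * (T ^ (3 / 4 : ℝ) * T ^ (5 / 4 : ℝ) + P * (T ^ (3 / 4 : ℝ) * T ^ (1 / 4 : ℝ))) := by ring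
      _ = _ := by rw [h54, h14]
  have hE2 : E ≤ E ^ 2 := by nlinarith
  have hE1 : 1 ≤ E ^ 2 := by nlinarith
  have h3 : T * P + 5 * 10 ^ 8 * E * (T * T + P * T) ≤ (18 * 10 ^ 10 * E ^ 2 * P) * T := by
    have h4 : T * T ≤ (352 * E * P) * T := mul_le_mul_of_nonneg_right hTP hT0.le
    have hPT : 0 ≤ P * T := by positivity
    calc T * P + 5 * 10 ^ 8 * E * (T * T + P * T) ≤ T * P + 5 * 10 ^ 8 * E * ((352 * E * P) * T + P * T) := by
          have h5 : 0 ≤ 5 * 10 ^ 8 * E := by positivity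
          nlinarith [mul_le_mul_of_nonneg_left h4 h5]
      _ = (1 + 176 * 10 ^ 9 * E ^ 2 + 5 * 10 ^ 8 * E) * (P * T) := by ring
      _ ≤ (18 * 10 ^ 10 * E ^ 2) * (P * T) := by
          refine mul_le_mul_of_nonneg_right ?_ hPT
          linarith
      _ = _ := by ring
  calc 1 / T * (s * (T * P + ρ ^ (3 / 2 : ℝ) * (T ^ (5 / 4 : ℝ) + P * T ^ (1 / 4 : ℝ)))) ≤
      1 / T * (s * ((18 * 10 ^ 10 * E ^ 2 * P) * T)) := by
        refine mul_le_mul_of_nonneg_left (mul_le_mul_of_nonneg_left ?_ hs) (by positivity)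
        linarith
    _ = 18 * 10 ^ 10 * E ^ 2 * (s * P) := by field_simp
    _ ≤ _ := by
        refine mul_le_mul_of_nonneg_left (mul_le_mul_of_nonneg_right hsS hP) (by positivity)

/-- the final sizes, with the numbers `p = √Y`, `a = sN`, `m = p a`, `h = a² b / p` -/
theorem ENL_fin (R p a b : ℝ) (e : ℕ) (he : 1 ≤ e) (hR : 1 ≤ R) (hR2 : 10 ^ 6 * (e : ℝ) ≤ R ^ 2) (hp : 0 < p) (ha : 0 < a)
    (hb : 1 ≤ b) (hp1 : R ^ 19 ≤ p ^ 2) (hap : 1 ≤ R ^ 3 * (a / p) ^ 2) (hap1 : (a / p) ^ 2 ≤ 1) :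
    ∃ (N₁ K₁ L L' T : ℕ) (ρ : ℝ), (N₁ : ℝ) ≤ 1 / 2 * a ∧ 1 / 2 * a < N₁ + 1 ∧
      (K₁ : ℝ) ≤ 17 / 100 * (b ^ 2 * a) ∧ 17 / 100 * (b ^ 2 * a) < K₁ + 1 ∧ EB N₁ K₁ L L' T e 1 1 1 b ρ ∧ R ^ 10 ≤ T ∧
      10 * ((N₁ : ℝ) ^ 3 * K₁ * e) ≤ T * (p ^ 2 / 50) ∧ 16 * (p ^ 2 / 50) ≤ (N₁ : ℝ) ^ 3 * K₁ * e ∧
      e * (2 * L : ℝ) ≤ 1 / 1000 * (p * a) ∧ e * (2 * L' + 1 : ℝ) ≤ 1 / 1000 * (b ^ 4 * (p * a)) ∧
      1 / 10 ^ 9 * (b ^ 4 * p ^ 4) / (e : ℝ) ^ 3 ≤ a * (b ^ 2 * a) * (L * L' / T) ∧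
      1 / (T : ℝ) * (√(L * L' : ℝ) * (T * (N₁ * K₁) + ρ ^ (3 / 2 : ℝ) * ((T : ℝ) ^ (5 / 4 : ℝ) + N₁ * K₁ * (T : ℝ) ^ (1 / 4 : ℝ)))) ≤
        10 ^ 8 * e * (b ^ 4 * p ^ 4 * (a / p) ^ 3) := by
  have hb0 : 0 < b := by linarith
  have hR0 : 0 < R := by linarith
  obtain ⟨E, hE⟩ : ∃ E : ℝ, E = e := ⟨_, rfl⟩
  have hE1 : 1 ≤ E := by rw [hE]; exact_mod_cast he
  have hE0 : 0 < E := by linarith
  rw [← hE] at hR2
  rw [← hE]
  -- the basic sizes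
  set c := a / p with hc
  have hc0 : 0 < c := by positivity
  have hac : a = c * p := by rw [hc]; field_simp
  have ha2 : R ^ 16 ≤ a ^ 2 := by
    have h1 : R ^ 19 * 1 ≤ p ^ 2 * (R ^ 3 * c ^ 2) := mul_le_mul hp1 hap (by norm_num) (by positivity)
    have h2 : R ^ 3 * R ^ 16 ≤ R ^ 3 * a ^ 2 := by
      rw [hac]
      calc R ^ 3 * R ^ 16 = R ^ 19 * 1 := by ring
        _ ≤ _ := h1
        _ = _ := by ring
    exact le_of_mul_le_mul_left h2 (by positivity)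
  have ha8 : R ^ 8 ≤ a := by
    have h1 : (R ^ 8) ^ 2 ≤ a ^ 2 := by
      calc (R ^ 8) ^ 2 = R ^ 16 := by ring
        _ ≤ _ := ha2
    exact (pow_le_pow_iff_left₀ (by positivity) ha.le (by norm_num)).mp h1
  have hR6 : 10 ^ 6 ≤ R ^ 2 := by nlinarith
  have hR28 : R ^ 2 ≤ R ^ 8 := pow_le_pow_right₀ hR (by norm_num)
  have haB : 10 ^ 6 ≤ a := by linarith
  have hpR : R ^ 9 ≤ p := by
    have h1 : (R ^ 9) ^ 2 ≤ p ^ 2 := by
      calc (R ^ 9) ^ 2 = R ^ 18 := by ring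
        _ ≤ R ^ 19 := pow_le_pow_right₀ hR (by norm_num)
        _ ≤ _ := hp1
    exact (pow_le_pow_iff_left₀ (by positivity) hp.le (by norm_num)).mp h1
  obtain ⟨m, hm⟩ : ∃ m : ℝ, m = p * a := ⟨_, rfl⟩
  have hm0 : 0 < m := by rw [hm]; positivity
  obtain ⟨h, hh⟩ : ∃ h : ℝ, h = a ^ 2 * b / p := ⟨_, rfl⟩
  have hh0 : 0 < h := by rw [hh]; positivity
  have rel : a ^ 3 * b = h * m := by rw [hh, hm]; field_simp
  have hh2 : h ^ 2 * p ^ 2 = a ^ 4 * b ^ 2 := by rw [hh]; field_simp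
  have hmE : 10 ^ 6 * E ≤ m := by
    calc 10 ^ 6 * E ≤ R ^ 2 := hR2
      _ ≤ R ^ 17 := pow_le_pow_right₀ hR (by norm_num)
      _ = R ^ 9 * R ^ 8 := by ring
      _ ≤ p * a := mul_le_mul hpR ha8 (by positivity) hp.le
      _ = m := hm.symm
  have hhc : h ^ 2 = c ^ 2 * (a ^ 2 * b ^ 2) := by rw [hh, hc]; field_simp
  have hh13 : R ^ 13 ≤ h ^ 2 := by
    have h1 : h ^ 2 = c ^ 4 * p ^ 2 * b ^ 2 := by
      rw [hh, hac]; field_simp
    have h2 : 1 ≤ R ^ 6 * c ^ 4 := by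
      calc (1 : ℝ) ≤ (R ^ 3 * c ^ 2) ^ 2 := one_le_pow₀ hap
        _ = _ := by ring
    have h3 : R ^ 6 * R ^ 13 ≤ R ^ 6 * h ^ 2 := by
      calc R ^ 6 * R ^ 13 = R ^ 19 * 1 * 1 := by ring
        _ ≤ p ^ 2 * (R ^ 6 * c ^ 4) * b ^ 2 := by
            refine mul_le_mul (mul_le_mul hp1 h2 (by norm_num) (by positivity)) (one_le_pow₀ hb) (by norm_num) (by positivity)
        _ = R ^ 6 * h ^ 2 := by rw [h1]; ring
    exact le_of_mul_le_mul_left h3 (by positivity)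
  have hbig : 10 ^ 6 * R ^ 10 ≤ h ^ 2 * E := by
    calc 10 ^ 6 * R ^ 10 ≤ R ^ 2 * R ^ 10 := mul_le_mul_of_nonneg_right hR6 (by positivity)
      _ = R ^ 12 * 1 := by ring
      _ ≤ R ^ 13 * E := mul_le_mul (pow_le_pow_right₀ hR (by norm_num)) hE1 (by norm_num) (by positivity)
      _ ≤ _ := mul_le_mul_of_nonneg_right hh13 hE0.le
  have hR10 : 1 ≤ R ^ 10 := one_le_pow₀ hR
  have hb2 : 1 ≤ b ^ 2 := one_le_pow₀ hb
  have hb4 : 1 ≤ b ^ 4 := one_le_pow₀ hb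
  -- N₁ and K₁
  obtain ⟨N₁, hN₁⟩ : ∃ N₁ : ℕ, N₁ = ⌊1 / 2 * a⌋₊ := ⟨_, rfl⟩
  obtain ⟨K₁, hK₁⟩ : ∃ K₁ : ℕ, K₁ = ⌊17 / 100 * (b ^ 2 * a)⌋₊ := ⟨_, rfl⟩
  have n2 : (N₁ : ℝ) ≤ 1 / 2 * a := by rw [hN₁]; exact Nat.floor_le (by positivity)
  have n1' : 1 / 2 * a < N₁ + 1 := by rw [hN₁]; exact Nat.lt_floor_add_one _
  have k2 : (K₁ : ℝ) ≤ 17 / 100 * (b ^ 2 * a) := by rw [hK₁]; exact Nat.floor_le (by positivity)
  have k1' : 17 / 100 * (b ^ 2 * a) < K₁ + 1 := by rw [hK₁]; exact Nat.lt_floor_add_one _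
  have hba : a ≤ b ^ 2 * a := le_mul_of_one_le_left ha.le hb2
  have n1 : a / 4 ≤ N₁ := by linarith
  have k1 : b ^ 2 * a / 8 ≤ K₁ := by linarith
  have hN0 : (0 : ℝ) < N₁ := lt_of_lt_of_le (by positivity) n1
  have hK0 : (0 : ℝ) < K₁ := lt_of_lt_of_le (by positivity) k1
  -- L and L'
  obtain ⟨L, hL⟩ : ∃ L : ℕ, L = ⌊m / (4000 * E)⌋₊ := ⟨_, rfl⟩
  obtain ⟨L', hL'⟩ : ∃ L' : ℕ, L' = ⌊b ^ 4 * m / (4000 * E)⌋₊ := ⟨_, rfl⟩
  have hbm : m ≤ b ^ 4 * m := le_mul_of_one_le_left hm0.le hb4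
  have L2 : 4000 * E * L ≤ m := by
    have h1 : (L : ℝ) ≤ m / (4000 * E) := by rw [hL]; exact Nat.floor_le (by positivity)
    rw [le_div_iff₀ (by positivity)] at h1
    linarith
  have L2' : 4000 * E * L' ≤ b ^ 4 * m := by
    have h1 : (L' : ℝ) ≤ b ^ 4 * m / (4000 * E) := by rw [hL']; exact Nat.floor_le (by positivity)
    rw [le_div_iff₀ (by positivity)] at h1
    linarith
  have L1 : m ≤ 8000 * E * L := by
    have h1 : m / (4000 * E) < L + 1 := by rw [hL]; exact Nat.lt_floor_add_one _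
    rw [div_lt_iff₀ (by positivity)] at h1
    linarith
  have L1' : b ^ 4 * m ≤ 8000 * E * L' := by
    have h1 : b ^ 4 * m / (4000 * E) < L' + 1 := by rw [hL']; exact Nat.lt_floor_add_one _
    rw [div_lt_iff₀ (by positivity)] at h1
    linarith
  have hL0 : (0 : ℝ) < L := by
    have h1 : 0 < (8000 * E) * (L : ℝ) := lt_of_lt_of_le hm0 L1
    exact (mul_pos_iff_of_pos_left (by positivity)).mp h1
  have hL0' : (0 : ℝ) < L' := by
    have h1 : 0 < (8000 * E) * (L' : ℝ) := lt_of_lt_of_le (by positivity) L1'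
    exact (mul_pos_iff_of_pos_left (by positivity)).mp h1
  -- the number X and T
  obtain ⟨X, hX⟩ : ∃ X : ℝ, X = (N₁ : ℝ) ^ 3 * K₁ * E / p ^ 2 := ⟨_, rfl⟩
  have hXp : X * p ^ 2 = (N₁ : ℝ) ^ 3 * K₁ * E := by rw [hX]; field_simp
  have hX1 : h ^ 2 * E / 512 ≤ X := by
    rw [hX, div_le_div_iff₀ (by norm_num) (by positivity)]
    calc h ^ 2 * E * p ^ 2 = E * (h ^ 2 * p ^ 2) := by ring
      _ = E * (a ^ 4 * b ^ 2) := by rw [hh2]
      _ = (a / 4) ^ 3 * (b ^ 2 * a / 8) * E * 512 := by ring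
      _ ≤ (N₁ : ℝ) ^ 3 * K₁ * E * 512 := by
          refine mul_le_mul_of_nonneg_right (mul_le_mul_of_nonneg_right ?_ (by positivity)) (by norm_num)
          exact mul_le_mul (pow_le_pow_left₀ (by positivity) n1 3) k1 (by positivity) (by positivity)
  have hX2 : X ≤ 17 / 800 * (h ^ 2 * E) := by
    rw [hX, div_le_iff₀ (by positivity)]
    calc (N₁ : ℝ) ^ 3 * K₁ * E ≤ (1 / 2 * a) ^ 3 * (17 / 100 * (b ^ 2 * a)) * E := by
          refine mul_le_mul_of_nonneg_right ?_ (by positivity)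
          exact mul_le_mul (pow_le_pow_left₀ hN0.le n2 3) k2 hK0.le (by positivity)
      _ = 17 / 800 * E * (a ^ 4 * b ^ 2) := by ring
      _ = 17 / 800 * E * (h ^ 2 * p ^ 2) := by rw [hh2]
      _ = _ := by ring
  obtain ⟨T, hT⟩ : ∃ T : ℕ, T = ⌈500 * X⌉₊ := ⟨_, rfl⟩
  have hX0 : 0 ≤ X := le_trans (by positivity) hX1
  have hTX : 500 * X ≤ T := by rw [hT]; exact Nat.le_ceil _
  have hTX2 : (T : ℝ) < 500 * X + 1 := by rw [hT]; exact Nat.ceil_lt_add_one (by positivity)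
  have hX3 : 1 ≤ X := by linarith
  have hTlow : 500 / 512 * (h ^ 2 * E) ≤ T := by linarith
  have hThigh : (T : ℝ) ≤ 11 * h ^ 2 * E := by linarith
  have hT1 : R ^ 10 ≤ T := by linarith
  have hT0 : (1 : ℝ) ≤ T := le_trans hR10 hT1
  obtain ⟨q1, q2, q3, q4, q5, q6, q7, q8⟩ := ENL_core a b m h E T L L' N₁ K₁ ha hb hm0 hh0 hE0 rel hThigh L1 L2 L1' L2'
    n1 (by linarith) k1 k2
  refine ⟨N₁, K₁, L, L', T, 20000 * (h * E), n2, n1', k2, k1', ?_, hT1, ?_, ?_, ?_, ?_, ?_, ?_⟩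
  · refine ⟨Nat.cast_pos.mp hN0, Nat.cast_pos.mp hK0, Nat.cast_pos.mp hL0, Nat.cast_pos.mp hL0', ?_, hb, by positivity, ?_, ?_, ?_, ?_⟩
    · exact_mod_cast hT0
    · -- s1
      rw [← hE, Nat.cast_one, mul_one, one_mul]
      have h4 : 0 ≤ h * E * b ^ 5 := by positivity
      calc 32 * ((T : ℝ) * E) * L' / (N₁ : ℝ) ^ 3 + (K₁ : ℝ) ^ 3 / L
          ≤ 6 * (h * E * b ^ 5) + 40 * (h * E * b ^ 5) := add_le_add q1 q2
        _ ≤ 20000 * (h * E) * b ^ 5 := by linarith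
    · -- s2
      rw [← hE, Nat.cast_one, mul_one, one_mul, one_mul]
      have h4 : 0 ≤ h * E * b := by positivity
      linarith
    · -- s3
      rw [← hE, Nat.cast_one, mul_one, one_mul, one_mul, one_mul]
      have h4 : 0 ≤ h * E * b := by positivity
      have h5 : 32 * ((T : ℝ) * E) * L / (N₁ : ℝ) ^ 3 + (K₁ : ℝ) ^ 3 / L' + 2 * (N₁ : ℝ) ^ 2 * K₁ / L ≤
          726 * (h * E * b) := by linarith
      have h6 : 4 * (N₁ : ℝ) / K₁ * (32 * ((T : ℝ) * E) * L / (N₁ : ℝ) ^ 3 + (K₁ : ℝ) ^ 3 / L' +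
          2 * (N₁ : ℝ) ^ 2 * K₁ / L) ≤ 11616 * (h * E / b) := by
        calc _ ≤ 16 / b ^ 2 * (726 * (h * E * b)) :=
              mul_le_mul q6 h5 (by positivity) (by positivity)
          _ = _ := by field_simp; ring
      have h8 : 20000 * (h * E) / b = 20000 * (h * E / b) := by ring
      have h4 : 0 ≤ h * E / b := by positivity
      rw [h8]
      linarith
    · -- s4
      rw [Nat.cast_one, one_mul]
      have h8 : 20000 * (h * E) / b ^ 5 = 20000 * (h * E / b ^ 5) := by ring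
      have h4 : 0 ≤ h * E / b ^ 5 := by positivity
      rw [h8]
      linarith
  · rw [← hXp]
    have h1 : (500 * X) * (p ^ 2 / 50) ≤ T * (p ^ 2 / 50) := mul_le_mul_of_nonneg_right hTX (by positivity)
    linarith
  · rw [← hXp]
    have h1 : 1 * p ^ 2 ≤ X * p ^ 2 := mul_le_mul_of_nonneg_right hX3 (by positivity)
    have h2 : 0 < p ^ 2 := by positivity
    linarith
  · rw [← hm]
    linarith
  · rw [← hm]
    linarith
  · -- (c)
    have hT0' : (0 : ℝ) < T := by linarith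
    have h1 : b ^ 4 * m ^ 2 ≤ 64000000 * E ^ 2 * ((L : ℝ) * L') := by
      calc b ^ 4 * m ^ 2 = m * (b ^ 4 * m) := by ring
        _ ≤ (8000 * E * L) * (8000 * E * L') := mul_le_mul L1 L1' (by positivity) (by positivity)
        _ = _ := by ring
    have key : (b ^ 4 * p ^ 4) * T ≤ 10 ^ 9 * E ^ 3 * (a * (b ^ 2 * a) * (L * L')) := by
      calc (b ^ 4 * p ^ 4) * T ≤ (b ^ 4 * p ^ 4) * (11 * h ^ 2 * E) := mul_le_mul_of_nonneg_left hThigh (by positivity)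
        _ = 11 * b ^ 4 * p ^ 2 * E * (h ^ 2 * p ^ 2) := by ring
        _ = 11 * b ^ 4 * p ^ 2 * E * (a ^ 4 * b ^ 2) := by rw [hh2]
        _ = 11 * E * (a ^ 2 * b ^ 2) * (b ^ 4 * m ^ 2) := by rw [hm]; ring
        _ ≤ 11 * E * (a ^ 2 * b ^ 2) * (64000000 * E ^ 2 * ((L : ℝ) * L')) := mul_le_mul_of_nonneg_left h1 (by positivity)
        _ = 704000000 * (E ^ 3 * (a * (b ^ 2 * a) * (L * L'))) := by ring
        _ ≤ 10 ^ 9 * (E ^ 3 * (a * (b ^ 2 * a) * (L * L'))) := mul_le_mul_of_nonneg_right (by norm_num) (by positivity)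
        _ = _ := by ring
    rw [div_le_iff₀ (by positivity)]
    have h6 : a * (b ^ 2 * a) * (L * L' / T) * E ^ 3 = (E ^ 3 * (a * (b ^ 2 * a) * (L * L'))) / T := by
      ring
    rw [h6, le_div_iff₀ hT0']
    linarith
  · -- the error
    have h32 : a ^ 2 * b ^ 2 ≤ 32 * ((N₁ : ℝ) * K₁) := by
      calc a ^ 2 * b ^ 2 = 32 * ((a / 4) * (b ^ 2 * a / 8)) := by ring
        _ ≤ _ := mul_le_mul_of_nonneg_left (mul_le_mul n1 k1 (by positivity) hN0.le) (by norm_num)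
    have hTP : (T : ℝ) ≤ 352 * E * ((N₁ : ℝ) * K₁) := by
      have h1 : h ^ 2 ≤ a ^ 2 * b ^ 2 := by
        rw [hhc]
        calc c ^ 2 * (a ^ 2 * b ^ 2) ≤ 1 * (a ^ 2 * b ^ 2) := mul_le_mul_of_nonneg_right hap1 (by positivity)
          _ = _ := by ring
      calc (T : ℝ) ≤ 11 * h ^ 2 * E := hThigh
        _ = 11 * E * h ^ 2 := by ring
        _ ≤ 11 * E * (32 * ((N₁ : ℝ) * K₁)) := mul_le_mul_of_nonneg_left (le_trans h1 h32) (by positivity)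
        _ = _ := by ring
    have hρ2 : (20000 * (h * E)) ^ 2 ≤ 5 * 10 ^ 8 * E * T := by
      calc (20000 * (h * E)) ^ 2 = 4 * 10 ^ 8 * E * (512 / 500) * (500 / 512 * (h ^ 2 * E)) := by ring
        _ ≤ 4 * 10 ^ 8 * E * (512 / 500) * T := mul_le_mul_of_nonneg_left hTlow (by positivity)
        _ = (4 * 10 ^ 8 * (512 / 500)) * (E * T) := by ring
        _ ≤ (5 * 10 ^ 8) * (E * T) := mul_le_mul_of_nonneg_right (by norm_num) (by positivity)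
        _ = _ := by ring
    have h3 : √((L : ℝ) * L') ≤ b ^ 2 * m / (4000 * E) := by
      rw [Real.sqrt_le_left (by positivity)]
      have h4 : (b ^ 2 * m / (4000 * E)) ^ 2 = b ^ 4 * m ^ 2 / (4000 * E) ^ 2 := by ring
      rw [h4, le_div_iff₀ (by positivity)]
      calc (L : ℝ) * L' * (4000 * E) ^ 2 = (4000 * E * L) * (4000 * E * L') := by ring
        _ ≤ m * (b ^ 4 * m) := mul_le_mul L2 L2' (by positivity) (by positivity)
        _ = _ := by ring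
    have h5 := ENL_err E T ((N₁ : ℝ) * K₁) (20000 * (h * E)) (√((L : ℝ) * L')) (b ^ 2 * m / (4000 * E)) hE1 hT0
      (by positivity) (by positivity) (Real.sqrt_nonneg _) h3 hρ2 hTP
    refine le_trans h5 ?_
    have h6 : (N₁ : ℝ) * K₁ ≤ 17 / 200 * (a ^ 2 * b ^ 2) := by
      calc (N₁ : ℝ) * K₁ ≤ (1 / 2 * a) * (17 / 100 * (b ^ 2 * a)) := mul_le_mul n2 k2 hK0.le (by positivity)
        _ = _ := by ring
    calc 18 * 10 ^ 10 * E ^ 2 * (b ^ 2 * m / (4000 * E) * ((N₁ : ℝ) * K₁)) ≤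
        18 * 10 ^ 10 * E ^ 2 * (b ^ 2 * m / (4000 * E) * (17 / 200 * (a ^ 2 * b ^ 2))) :=
          mul_le_mul_of_nonneg_left (mul_le_mul_of_nonneg_left h6 (by positivity)) (by positivity)
      _ = 3825000 * (E * (b ^ 4 * m * a ^ 2)) := by field_simp; ring
      _ ≤ 10 ^ 8 * (E * (b ^ 4 * m * a ^ 2)) := mul_le_mul_of_nonneg_right (by norm_num) (by positivity)
      _ = 10 ^ 8 * E * (b ^ 4 * p ^ 4 * c ^ 3) := by
          rw [hm, hc]; field_simp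

theorem ENL : ENL_stmt := by
  intro B τ hτ
  obtain ⟨η, hη0, hη1, hη2⟩ : ∃ η : ℝ, 0 < η ∧ η ≤ 1 / 100 ∧ η * B ≤ τ / 4 := by
    refine ⟨min (1 / 100) (τ / (4 * (B + 1))), lt_min (by norm_num) (by positivity), min_le_left _ _, ?_⟩
    calc min (1 / 100) (τ / (4 * (B + 1))) * B ≤ τ / (4 * (B + 1)) * B :=
          mul_le_mul_of_nonneg_right (min_le_right _ _) (Nat.cast_nonneg B)
      _ ≤ τ / 4 := by
          rw [div_mul_eq_mul_div, div_le_div_iff₀ (by positivity) (by norm_num)]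
          nlinarith
  refine ⟨η, 1 / 10 ^ 9, hη0, hη1, by positivity, ?_⟩
  intro e he
  have heR : (1 : ℝ) ≤ e := by exact_mod_cast he
  refine ⟨10 ^ 8 * e, (10 ^ 6 * (e : ℝ)) ^ 20, by nlinarith, ?_⟩
  intro N Y Y₂ hN hRg
  obtain ⟨hYY, hY2, hA2, hlow⟩ := hRg
  have hM : (1 : ℝ) < 10 ^ 6 * (e : ℝ) := by nlinarith
  obtain ⟨R, hR, hRN, hR2, hRe⟩ := ENL_R N (10 ^ 6 * (e : ℝ)) hM.le hN
  have hR0 : 0 < R := by linarith
  have hN1 : 1 < N := lt_of_lt_of_le (one_lt_pow₀ hM (by norm_num)) hN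
  have hN0 : 0 < N := by linarith
  have hηR : N ^ η ≤ R := by
    rw [hRe]
    exact Real.rpow_le_rpow_of_exponent_le hN1.le (by linarith)
  -- the product
  have hprod : R ^ 39 ≤ Y * Y₂ := by
    have h1 : N ^ (1 - η) * N ^ η = N := by
      rw [← Real.rpow_add hN0]
      simp
    have h2 : R ^ 39 * R ≤ N ^ (1 - η) * R := by
      calc R ^ 39 * R = N := by rw [← hRN]; ring
        _ = N ^ (1 - η) * N ^ η := h1.symm
        _ ≤ N ^ (1 - η) * R := mul_le_mul_of_nonneg_left hηR (by positivity)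
    exact le_trans (le_of_mul_le_mul_right h2 hR0) hlow
  have hprod0 : 0 < Y * Y₂ := lt_of_lt_of_le (by positivity) hprod
  have hY0 : 0 < Y := by
    rcases lt_trichotomy Y 0 with h1 | h1 | h1
    · exfalso
      have h5 : 1 < N ^ η := Real.one_lt_rpow hN1 hη0
      have h6 : N ^ η * Y < 1 * Y := mul_lt_mul_of_neg_right h5 h1
      linarith
    · rw [h1, zero_mul] at hprod0
      exact absurd hprod0 (lt_irrefl 0)
    · exact h1
  have hY20 : 0 < Y₂ := lt_of_lt_of_le hY0 hYY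
  have hYR : R ^ 19 ≤ Y := by
    have h1 : R * (R ^ 19) ^ 2 ≤ R * Y ^ 2 := by
      calc R * (R ^ 19) ^ 2 = R ^ 39 := by ring
        _ ≤ Y * Y₂ := hprod
        _ ≤ Y * (R * Y) := by
            refine mul_le_mul_of_nonneg_left ?_ hY0.le
            exact le_trans hY2 (mul_le_mul_of_nonneg_right hηR hY0.le)
        _ = R * Y ^ 2 := by ring
    exact (pow_le_pow_iff_left₀ (by positivity) hY0.le (by norm_num)).mp (le_of_mul_le_mul_left h1 hR0)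
  -- square roots
  obtain ⟨p, hp⟩ : ∃ p : ℝ, p = √Y := ⟨_, rfl⟩
  obtain ⟨q, hq⟩ : ∃ q : ℝ, q = √Y₂ := ⟨_, rfl⟩
  obtain ⟨f, hf⟩ : ∃ f : ℝ, f = √N := ⟨_, rfl⟩
  have hp0 : 0 < p := by rw [hp]; exact Real.sqrt_pos.mpr hY0
  have hq0 : 0 < q := by rw [hq]; exact Real.sqrt_pos.mpr hY20
  have he0 : 0 < f := by rw [hf]; exact Real.sqrt_pos.mpr hN0
  have hpp : p ^ 2 = Y := by rw [hp]; exact Real.sq_sqrt hY0.le
  have hqq : q ^ 2 = Y₂ := by rw [hq]; exact Real.sq_sqrt hY20.le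
  have hee : f ^ 2 = N := by rw [hf]; exact Real.sq_sqrt hN0.le
  have hpq : p ≤ q := by rw [hp, hq]; exact Real.sqrt_le_sqrt hYY
  obtain ⟨b, hb⟩ : ∃ b : ℝ, b = √(q / p) := ⟨_, rfl⟩
  have hb2 : b ^ 2 = q / p := by rw [hb]; exact Real.sq_sqrt (by positivity)
  have hb1 : 1 ≤ b := by
    rw [hb, Real.one_le_sqrt, one_le_div hp0]
    exact hpq
  have hb4 : b ^ 4 = Y₂ / Y := by
    rw [← hpp, ← hqq]
    calc b ^ 4 = (b ^ 2) ^ 2 := by ring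
      _ = _ := by rw [hb2]; ring
  obtain ⟨a, ha⟩ : ∃ a : ℝ, a = p ^ 2 * q / f := ⟨_, rfl⟩
  have ha0 : 0 < a := by rw [ha]; positivity
  have hsN : sN N Y Y₂ = a := by
    unfold sN
    rw [← hq, ← hf, ha, hpp]
  have hsK : sK N Y Y₂ = b ^ 2 * a := by
    unfold sK
    rw [← hp, ← hf, ha, hb2, ← hqq]
    field_simp
  have hsM : sM N Y Y₂ = p * a := by
    unfold sM
    rw [← hp, ← hq, ← hf, ha, ← hpp]
    ring
  have hsG : sG N Y Y₂ = b ^ 4 * (p * a) := by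
    unfold sG
    rw [← hp, ← hq, ← hf, ha, hb4, ← hpp, ← hqq]
    field_simp
  have hap2 : (a / p) ^ 2 = Y * Y₂ / N := by
    rw [← hee, ← hpp, ← hqq, ha]
    field_simp
  have hap : 1 ≤ R ^ 3 * (a / p) ^ 2 := by
    rw [hap2, ← mul_div_assoc, one_le_div hN0]
    calc N = R * R ^ 39 := by rw [← hRN]; ring
      _ ≤ R ^ 3 * (Y * Y₂) := by
          refine mul_le_mul ?_ hprod (by positivity) (by positivity)
          calc R = R ^ 1 := (pow_one R).symm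
            _ ≤ R ^ 3 := pow_le_pow_right₀ hR (by norm_num)
  have hap1 : (a / p) ^ 2 ≤ 1 := by
    rw [hap2, div_le_one hN0]
    exact hA2
  obtain ⟨N₁, K₁, L, L', T, ρ, g1, g2, g3, g4, g5, g6, g7, g8, g9, g10, g11, g12⟩ :=
    ENL_fin R p a b e he hR hR2 hp0 ha0 hb1 (by rw [hpp]; exact hYR) hap hap1
  have hT1 : (1 : ℝ) ≤ T := le_trans (one_le_pow₀ hR) g6
  have hbB : b ^ B ≤ (T : ℝ) ^ τ := by
    have g1 : b ≤ N ^ η := by
      calc b = b ^ 1 := (pow_one b).symm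
        _ ≤ b ^ 4 := pow_le_pow_right₀ hb1 (by norm_num)
        _ ≤ N ^ η := by rw [hb4, div_le_iff₀ hY0]; exact hY2
    calc b ^ B ≤ (N ^ η) ^ B := pow_le_pow_left₀ (by linarith) g1 B
      _ = N ^ (η * B) := by rw [Real.rpow_mul hN0.le, Real.rpow_natCast]
      _ ≤ N ^ (τ / 4) := Real.rpow_le_rpow_of_exponent_le hN1.le hη2
      _ = (R ^ 10) ^ τ := by
          rw [hRe, ← Real.rpow_natCast, ← Real.rpow_mul hN0.le, ← Real.rpow_mul hN0.le]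
          congr 1
          push_cast
          ring
      _ ≤ (T : ℝ) ^ τ := Real.rpow_le_rpow (by positivity) g6 hτ.le
  have hYY4 : b ^ 4 * p ^ 4 = Y * Y₂ := by
    rw [hb4, ← hpp, ← hqq]
    field_simp
  have hc3 : (a / p) ^ 3 = (Y * Y₂ / N) ^ (3 / 2 : ℝ) := by
    rw [← hap2, ← Real.rpow_natCast, ← Real.rpow_natCast, ← Real.rpow_mul (by positivity)]
    norm_num
  rw [hsN, hsK, hsM, hsG]
  refine ⟨N₁, K₁, L, L', T, b, ρ, g1, g2, g3, g4, g5, hbB, ?_, ?_, g9, g10, ?_, ?_⟩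
  · rw [← hpp]
    exact g7
  · rw [← hpp]
    exact g8
  · rw [← hYY4]
    exact g11
  · rw [← hc3, ← hYY4]
    exact g12

end Pool.Agent.T6
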